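import Mathlib.Algebra.Group.WithOne.Defs
import Mathlib.Algebra.Group.Prod
import Mathlib.Algebra.Group.Subsemigroup.Operations
import Mathlib.GroupTheory.Perm.Basic
import Mathlib.Tactic

set_option autoImplicit false

/-!
# Primary conjugacy is not transitive in all semigroups embeddable in a group

The semigroup consists of the pairs `(n, h)` in the group `ℤ × S₃` with `n ≥ 2`, or `n = 1` and `h`
in a set of four permutations `u, v, x, y` with `v u = x y`.
-/

namespace Pool.Agent.Results.MP_36d240_al.NotTransitive

/-- p-conjugacy in a semigroup `T`: `a = u v` and `b = v u` for some `u, v` in `T` with an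
identity element adjoined. (If `T` already has an identity element, this is the same relation as
the one with `u, v` in `T`.) -/
def PConj {T : Type*} [Semigroup T] (a b : T) : Prop :=
  ∃ u v : WithOne T, (a : WithOne T) = u * v ∧ (b : WithOne T) = v * u

/-- p-conjugacy is transitive in `T` -/
def PTrans (T : Type*) [Semigroup T] : Prop :=
  ∀ a b c : T, PConj a b → PConj b c → PConj a c

theorem wo_cases {T : Type*} (u : WithOne T) : u = 1 ∨ ∃ t : T, u = t := by
  induction u using WithOne.cases_on with
  | _ => simp

/-- the symmetric group of degree three -/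
abbrev H := Equiv.Perm (Fin 3)

/-- the transposition of `1` and `2` -/
def u0 : H := Equiv.swap 1 2
/-- a cycle -/
def v0 : H := finRotate 3
/-- the inverse cycle -/
def x0 : H := (finRotate 3)⁻¹
/-- the transposition of `0` and `2` -/
def y0 : H := Equiv.swap 0 2

/-- the set of the four permutations -/
def A (h : H) : Prop := h = u0 ∨ h = v0 ∨ h = x0 ∨ h = y0

instance : DecidablePred A := fun h => by unfold A; infer_instance

/-- the group -/
abbrev G := Multiplicative ℤ × H

/-- the subsemigroup -/
def S : Subsemigroup G where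
  carrier := {g | 2 ≤ g.1.toAdd ∨ (g.1.toAdd = 1 ∧ A g.2)}
  mul_mem' := by
    rintro a b ha hb
    left
    have h1 : 1 ≤ a.1.toAdd := by rcases ha with h | h <;> omega
    have h2 : 1 ≤ b.1.toAdd := by rcases hb with h | h <;> omega
    show 2 ≤ a.1.toAdd + b.1.toAdd
    omega

theorem mem_deg {g : G} (hg : g ∈ S) : 1 ≤ g.1.toAdd := by
  rcases hg with h | h <;> omega

/-- the element of degree one given by a member of the set of four permutations -/
def el (h : H) (hh : A h) : S := ⟨(Multiplicative.ofAdd 1, h), Or.inr ⟨rfl, hh⟩⟩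

theorem keyA : ∀ p q : H, A p → A q → ¬ (u0 * v0 = p * q ∧ y0 * x0 = q * p) := by decide

theorem hvx : v0 * u0 = x0 * y0 := by decide

theorem hne : u0 * v0 ≠ y0 * x0 := by decide

theorem not_ptrans : ¬ PTrans S := by
  intro h
  have hu : A u0 := Or.inl rfl
  have hv : A v0 := Or.inr (Or.inl rfl)
  have hx : A x0 := Or.inr (Or.inr (Or.inl rfl))
  have hy : A y0 := Or.inr (Or.inr (Or.inr rfl))
  have h1 : PConj (el u0 hu * el v0 hv) (el v0 hv * el u0 hu) :=
    ⟨(el u0 hu : WithOne S), (el v0 hv : WithOne S), rfl, rfl⟩
  have h2 : PConj (el x0 hx * el y0 hy) (el y0 hy * el x0 hx) :=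
    ⟨(el x0 hx : WithOne S), (el y0 hy : WithOne S), rfl, rfl⟩
  have h3 : el v0 hv * el u0 hu = el x0 hx * el y0 hy :=
    Subtype.ext (Prod.ext rfl hvx)
  rw [h3] at h1
  obtain ⟨p, q, h4, h5⟩ := h _ _ _ h1 h2
  have hne' : el u0 hu * el v0 hv ≠ el y0 hy * el x0 hx := fun e =>
    hne (congrArg Prod.snd (congrArg Subtype.val e))
  obtain rfl | ⟨p, rfl⟩ := wo_cases p
  · rw [one_mul] at h4
    rw [mul_one] at h5
    exact hne' (WithOne.coe_injective (h4.trans h5.symm))
  · obtain rfl | ⟨q, rfl⟩ := wo_cases q
    · rw [mul_one] at h4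
      rw [one_mul] at h5
      exact hne' (WithOne.coe_injective (h4.trans h5.symm))
    · rw [← WithOne.coe_mul] at h4 h5
      have h6 := congrArg Subtype.val (WithOne.coe_injective h4)
      have h7 := congrArg Subtype.val (WithOne.coe_injective h5)
      have h8 : u0 * v0 = p.1.2 * q.1.2 := congrArg Prod.snd h6
      have h9 : y0 * x0 = q.1.2 * p.1.2 := congrArg Prod.snd h7
      have h10 : (1 : ℤ) + 1 = p.1.1.toAdd + q.1.1.toAdd := congrArg (fun g : G => g.1.toAdd) h6
      have hp := mem_deg p.2
      have hq := mem_deg q.2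
      have hp1 : A p.1.2 := by
        rcases p.2 with h | h
        · omega
        · exact h.2
      have hq1 : A q.1.2 := by
        rcases q.2 with h | h
        · omega
        · exact h.2
      exact keyA _ _ hp1 hq1 ⟨h8, h9⟩

/-- **A cancellative semigroup, embeddable in a group, in which p-conjugacy is not transitive.** -/
theorem result : ∃ (S : Type) (_ : Semigroup S),
    (∀ a b c : S, (a * c = b * c → a = b) ∧ (c * a = c * b → a = b)) ∧
    (∃ (G : Type) (_ : Group G) (f : S →ₙ* G), Function.Injective f) ∧
    ¬ PTrans S := by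
  refine ⟨S, inferInstance, fun a b c => ⟨fun h => ?_, fun h => ?_⟩,
    ⟨G, inferInstance, ⟨Subtype.val, fun _ _ => rfl⟩, Subtype.val_injective⟩, not_ptrans⟩
  · exact Subtype.ext (mul_right_cancel (congrArg Subtype.val h))
  · exact Subtype.ext (mul_left_cancel (congrArg Subtype.val h))

end Pool.Agent.Results.MP_36d240_al.NotTransitive
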